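import Pool.Agent.H72.AO.Lib
import Pool.Agent.H93.MA.CBA

/-!
Module DTH: small sets between two closed sets.
-/

set_option linter.unusedVariables false
set_option linter.unusedSectionVars false
set_option synthInstance.maxSize 100000

namespace AO

open SW

theorem dth (h1 : CLTStmt) (h2 : TMFStmt) : DTHStmt := by
  intro M _ _ l T D D' c hT hl hD' hN hc hcb
  have tf := h2 M l T hT
  have cb : CbA M := ma_cba M
  have hcl : Cl3 (fun x y n : M => (x ≠ y ∧ E n (nb T x) ∧ E n (nb T y)) ∨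
      (x = y ∧ ¬ E x D ∧ E n (nb T x) ∧ E n D)) := inferInstance
  have hf : Fn2 (fun x y : M => sep D' (fun n => (x ≠ y ∧ E n (nb T x) ∧ E n (nb T y)) ∨
      (x = y ∧ ¬ E x D ∧ E n (nb T x) ∧ E n D))) := inferInstance
  have hm : ∀ x y n : M, E n (sep D' (fun n => (x ≠ y ∧ E n (nb T x) ∧ E n (nb T y)) ∨
      (x = y ∧ ¬ E x D ∧ E n (nb T x) ∧ E n D))) ↔ E n D' ∧
      ((x ≠ y ∧ E n (nb T x) ∧ E n (nb T y)) ∨ (x = y ∧ ¬ E x D ∧ E n (nb T x) ∧ E n D)) :=
    fun x y n => mem_sep' inferInstance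
  obtain ⟨C, hC1, hC2, hC3, hC4⟩ := h1 M D' c _ hf hc hcb (fun x y hx hy => by
    refine ⟨fun n hn => ((hm x y n).1 hn).1, ?_⟩
    by_cases hxy : x = y
    · by_cases hxD : E x D
      · refine cb.sub (cb.fin finF.emp) (fun n hn => ?_)
        rcases ((hm x y n).1 hn).2 with h | h
        · exact absurd hxy h.1
        · exact absurd hxD h.2.1
      · refine cb.sub (hN x hx hxD) (fun n hn => ?_)
        rcases ((hm x y n).1 hn).2 with h | h
        · exact absurd hxy h.1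
        · exact mem_inter.2 ⟨h.2.2.2, h.2.2.1⟩
    · refine cb.sub (tf.com x y (hl x hx) (hl y hy) hxy) (fun n hn => ?_)
      rcases ((hm x y n).1 hn).2 with h | h
      · exact mem_inter.2 h.2
      · exact absurd h.1 hxy)
  refine ⟨C, hC1, hC2, hC3, ?_, ?_⟩
  · intro d d' n hd hd' hne hn hn'
    exact hC4 d d' hd hd' n ((hm d d' n).2 ⟨hD' d n (hC2 d hd) hn, Or.inl ⟨hne, hn, hn'⟩⟩)
  · intro d n hd hdD hn hnD
    exact hC4 d d hd hd n ((hm d d n).2 ⟨hD' d n (hC2 d hd) hn, Or.inr ⟨rfl, hdD, hn, hnD⟩⟩)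

end AO
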