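import Pool.Agent.H72.AO.Lib
import Pool.Agent.H93.MA.CBA

/-!
Module SZA: facts about sizes, without products.
-/

set_option linter.unusedVariables false
set_option linter.unusedSectionVars false
set_option synthInstance.maxSize 100000

namespace AO

open SW

theorem sza (h1 : ALFStmt) : SZAStmt := by
  intro M _ _
  have af : AlfFacts M := h1 M
  have cb : CbA M := ma_cba M
  have hmono : ∀ m n (x : M), m ≤ n → Sz m x → Sz n x := by
    rintro m n x hmn ⟨v, hv, hx⟩
    rcases Nat.lt_or_eq_of_le hmn with h | rfl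
    · obtain ⟨w, hw⟩ := af.ex n
      have h2 := af.lt m n v w h hv hw
      exact ⟨w, hw, Img.mono hx ((af.ord n w hw).sub_of_mem h2)⟩
    · exact ⟨v, hv, hx⟩
  have hcb : ∀ x : M, Sz 0 x ↔ Cb x := by
    intro x
    constructor
    · rintro ⟨w, hw, hx⟩
      simp only [Alf] at hw
      subst hw
      exact img_om_iff.1 hx
    · intro hx
      exact ⟨SW.om, by simp only [Alf], img_om_iff.2 hx⟩
  exact {
    self := fun n w hw => ⟨w, hw, Img.refl w⟩
    not := by
      rintro n w hw ⟨v, hv, hx⟩
      simp only [Alf] at hw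
      obtain ⟨_, v', hv', h3, _⟩ := hw
      exact h3 (by rw [af.uniq n v' v hv' hv]; exact hx)
    mono := hmono
    sub := by
      rintro n x y ⟨w, hw, hx⟩ hy
      exact ⟨w, hw, Img.sub hx hy⟩
    img := by
      rintro n x f hf ⟨w, hw, hx⟩
      exact ⟨w, hw, Img.image hx hf⟩
    inj := by
      rintro n x y f hf ⟨w, hw, hx⟩ h2 h3
      exact ⟨w, hw, Img.inj hx hf h2 h3⟩
    cb := hcb
    fnt := fun n x hx => hmono 0 n x (Nat.zero_le n) ((hcb x).2 (cb.fin hx))
    om := fun n => hmono 0 n _ (Nat.zero_le n) ((hcb _).2 cb.om) }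

end AO
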