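import Pool.Agent.H72.AO.Lib
import Pool.Agent.H78.CUR.NU
import Pool.Agent.H97.MA.CTR

/-!
Module ALW: sets of cardinality less than aleph omega.
-/

set_option linter.unusedVariables false
set_option linter.unusedSectionVars false
set_option synthInstance.maxSize 100000

namespace AO

open SW

section
variable {M : Type} [SetStr M] [ZF M]

theorem img_of_injects {a b : M} (h : Injects a b) : Img b a := by
  obtain ⟨f, hf, hi⟩ := h
  have hR : Cl2 (fun x y : M => PairIn y x f) := by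
    unfold PairIn IsOP
    infer_instance
  refine img_of_rel (R := fun x y => PairIn y x f) hR ?_ ?_
  · intro y hy
    obtain ⟨x, hx, _⟩ := hf.2 y hy
    obtain ⟨z, hz, hzf⟩ := hx
    obtain ⟨y', x', hy', hx', hop⟩ := hf.1 z hzf
    have e : PairIn y x f := ⟨z, hz, hzf⟩
    have e2 : PairIn y' x' (sing (opair y x)) := by
      have h1 : E (opair y x) f := pairIn_iff.1 e
      rw [pairIn_iff]
      have h2 : z = opair y x := (isOP_iff).1 hz
      have h3 : z = opair y' x' := (isOP_iff).1 hop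
      rw [← h3, h2]
      simp
    rw [pairIn_iff, mem_sing, opair_inj] at e2
    exact ⟨x, by rw [← e2.2]; exact hx', e⟩
  · intro x y y' _ _ _ h h'
    exact hi y y' x h h'

/-- an image of an ordinal injects into the ordinal -/
theorem injects_of_img {a b : M} (ha : Ord a) (h : Img a b) : Injects b a := by
  obtain ⟨g, hg⟩ := h
  have key : ∀ y x, E (opair y x) (sep (prod b a) (fun p : M => ∃ y x : M, p = opair y x ∧
      y = app g x ∧ ∀ x' : M, E x' x → y ≠ app g x')) ↔
      E y b ∧ E x a ∧ y = app g x ∧ ∀ x' : M, E x' x → y ≠ app g x' := by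
    intro y x
    rw [mem_sep' inferInstance, mem_prod]
    constructor
    · rintro ⟨⟨hx, hy⟩, x', y', he, hr⟩
      rw [opair_inj] at he
      obtain ⟨rfl, rfl⟩ := he
      exact ⟨hx, hy, hr⟩
    · rintro ⟨hx, hy, hr⟩
      exact ⟨⟨hx, hy⟩, y, x, rfl, hr⟩
  refine ⟨sep (prod b a) (fun p : M => ∃ y x : M, p = opair y x ∧
      y = app g x ∧ ∀ x' : M, E x' x → y ≠ app g x'), ⟨?_, ?_⟩, ?_⟩
  · intro z hz
    have hz' := hz
    rw [mem_sep' inferInstance] at hz'
    obtain ⟨_, y, x, rfl, _⟩ := hz'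
    obtain ⟨h1, h2, _⟩ := (key y x).1 hz
    exact ⟨y, x, h1, h2, isOP_iff.2 rfl⟩
  · intro y hy
    obtain ⟨x0, hx0, e0⟩ := hg y hy
    obtain ⟨x, hx, ⟨hxa, hxe⟩, hmin, _⟩ := ord_min
      (C := fun x : M => E x a ∧ y = app g x) inferInstance (ha.mem hx0) ⟨hx0, e0⟩
    have hm : ∀ x' : M, E x' x → y ≠ app g x' :=
      fun x' hx' e => hmin x' hx' ⟨ha.trans hxa hx', e⟩
    refine ⟨x, pairIn_iff.2 ((key y x).2 ⟨hy, hxa, hxe, hm⟩), ?_⟩
    intro x' hx'
    obtain ⟨_, h2, h3, h4⟩ := (key y x').1 (pairIn_iff.1 hx')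
    rcases hx.tri (ha.mem h2) with h | h | h
    · exact absurd hxe (h4 x h)
    · exact h.symm
    · exact absurd h3 (hm x' h)
  · intro y y' x h h'
    obtain ⟨_, _, h1, _⟩ := (key y x).1 (pairIn_iff.1 h)
    obtain ⟨_, _, h2, _⟩ := (key y' x).1 (pairIn_iff.1 h')
    rw [h1, h2]

end

theorem alw (h1 : ALFStmt) : ALWStmt := by
  rintro N _ _ H hS ⟨w, n, f, hw, hn, hf, h0, hs, a, ha, hH⟩
  have af := h1 N
  rw [ctr_omega] at hw
  subst hw
  obtain ⟨m, rfl⟩ := hS n hn
  have key : ∀ k, k ≤ m → ∃ a : N, PairIn (nu k) a f ∧ Alf k a := by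
    intro k
    induction k with
    | zero =>
      intro _
      refine ⟨om, h0 emp not_mem_emp, ?_⟩
      simp only [Alf]
    | succ k ih =>
      intro hk
      obtain ⟨a, ha1, ha2⟩ := ih (by omega)
      have hk1 : E (nu k : N) (nu m) := CUR.nu_lt (by omega)
      have hk2 : E (nu (k + 1) : N) (nu m) ∨ (nu (k + 1) : N) = nu m := by
        rcases Nat.lt_or_eq_of_le hk with h | h
        · exact Or.inl (CUR.nu_lt h)
        · exact Or.inr (by rw [h])
      obtain ⟨b, hb, _⟩ := hf _ hk2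
      obtain ⟨g1, g2, g3⟩ := hs (nu k) (nu (k + 1)) a b hk1 (fun t => by
        change E t (suc (nu k)) ↔ _
        rw [mem_suc]) ha1 hb
      refine ⟨b, hb, ?_⟩
      simp only [Alf]
      exact ⟨⟨g1.1, g1.2⟩, a, ha2, fun hc => g2 (injects_of_img (af.ord k a ha2) hc),
        fun c hc => img_of_injects (g3 c hc)⟩
  obtain ⟨a', ha', hA⟩ := key m le_rfl
  obtain ⟨a'', _, hu⟩ := hf (nu m) (Or.inr rfl)
  have e : a' = a := (hu a' ha').trans (hu a ha).symm
  subst e
  exact ⟨m, a', hA, img_of_injects hH⟩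

end AO
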