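import Pool.Agent.H72.AO.Lib
import Pool.Agent.H93.CT.All

/-!
Module CHF: the continuum hypothesis can be forced.
-/

set_option linter.unusedVariables false
set_option linter.unusedSectionVars false
set_option synthInstance.maxSize 100000

namespace AO

open SW

theorem sz1_of_ch {N : Type} [SetStr N] [ZFC N] (h : ContinuumHypothesis N) :
    Sz 1 (pow om : N) := by
  obtain ⟨w, o, f, hw, ho, h1, h2⟩ := h
  rw [ctr_omega] at ho
  subst ho
  have hord : Ord w := ⟨hw.1.1, hw.1.2⟩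
  have hcb : ¬ Cb w := fun hc => hw.2.1 ((ma_ctr N w).2 hc)
  have hcb' : ∀ a, E a w → Cb a := fun a ha => (ma_ctr N a).1 (hw.2.2 a ha)
  refine ⟨w, ?_, ?_⟩
  · simp only [Alf]
    exact ⟨hord, om, rfl, fun hc => hcb (img_om_iff.1 hc), fun a ha => img_om_iff.2 (hcb' a ha)⟩
  · refine img_of_rel (R := fun a x => PairIn x a f) ?_ ?_ ?_
    · unfold PairIn IsOP
      infer_instance
    · intro x hx
      rw [mem_pow] at hx
      exact h1 x hx
    · intro a x x' _ hx hx' h h'
      rw [mem_pow] at hx hx'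
      exact h2 x x' a hx hx' h h'

theorem chf : CHFStmt := by
  intro M _ _ _
  obtain ⟨w, hw⟩ := u_w0 M
  obtain ⟨Z, hZ, hc⟩ := u_bit M (om : M) ⟨emp, emp_mem_om⟩
  have hB : Bs w Z := ⟨hw, hZ, fun a ha hca => hc a ha (img_om_iff.2 hca)⟩
  have hI : ¬ E (emp : M) (emp : M) := not_mem_emp _
  obtain ⟨G, hG, _⟩ := (semF (PG w Z emp)).ex _ (PG w Z emp).one_mem
  refine ⟨PG w Z emp, G, hG, fun {_} => ?_⟩
  exact sz1_of_ch (u_chx M w Z emp G hB hI hG)

end AO
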