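import Pool.Agent.H98.AO.BStmts

/-!
Images and countable sets: small lemmas.
-/

set_option linter.unusedVariables false
set_option linter.unusedSectionVars false
set_option synthInstance.maxSize 100000

namespace AO

open SW

section
variable {M : Type} [SetStr M] [ZF M]

/-- images by class functions -/
theorem img_of_fn {z a : M} {f : M → M} (hf : Fn1 f)
    (h : ∀ y, E y a → ∃ x, E x z ∧ y = f x) : Img z a :=
  ⟨gr z f, fun y hy => by
    obtain ⟨x, hx, e⟩ := h y hy
    exact ⟨x, hx, by rw [app_gr hf hx]; exact e⟩⟩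

/-- images by class relations -/
theorem img_of_rel {z a : M} {R : M → M → Prop} (hR : Cl2 R)
    (h1 : ∀ y, E y a → ∃ x, E x z ∧ R x y)
    (h2 : ∀ x y y', E x z → E y a → E y' a → R x y → R x y' → y = y') : Img z a := by
  have key : ∀ x y, E (opair x y) (sep (prod z a) (fun p : M => ∃ x y : M, p = opair x y ∧ R x y))
      ↔ E x z ∧ E y a ∧ R x y := by
    intro x y
    rw [mem_sep' inferInstance, mem_prod]
    constructor
    · rintro ⟨⟨hx, hy⟩, x', y', he, hr⟩
      rw [opair_inj] at he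
      obtain ⟨rfl, rfl⟩ := he
      exact ⟨hx, hy, hr⟩
    · rintro ⟨hx, hy, hr⟩
      exact ⟨⟨hx, hy⟩, x, y, rfl, hr⟩
  refine ⟨sep (prod z a) (fun p : M => ∃ x y : M, p = opair x y ∧ R x y), fun y hy => ?_⟩
  obtain ⟨x, hx, hr⟩ := h1 y hy
  refine ⟨x, hx, ?_⟩
  exact (the_eq (p := fun y' : M => E (opair x y')
    (sep (prod z a) (fun p : M => ∃ x y : M, p = opair x y ∧ R x y)))
    ((key x y).2 ⟨hx, hy, hr⟩) fun y' hy' => by
      obtain ⟨_, h3, h4⟩ := (key x y').1 hy'
      exact h2 x y' y hx h3 hy h4 hr).symm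

theorem img_om_iff {x : M} : Img om x ↔ Cb x := by
  constructor
  · rintro ⟨f, hf⟩
    have key : ∀ y n, E (opair y n) (sep (prod x om) (fun p : M => ∃ y n : M, p = opair y n ∧
        y = app f n)) ↔ E y x ∧ E n om ∧ y = app f n := by
      intro y n
      rw [mem_sep' inferInstance, mem_prod]
      constructor
      · rintro ⟨⟨hx, hy⟩, x', y', he, hr⟩
        rw [opair_inj] at he
        obtain ⟨rfl, rfl⟩ := he
        exact ⟨hx, hy, hr⟩
      · rintro ⟨hx, hy, hr⟩
        exact ⟨⟨hx, hy⟩, y, n, rfl, hr⟩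
    refine ⟨sep (prod x om) (fun p : M => ∃ y n : M, p = opair y n ∧ y = app f n),
      fun y hy => ?_, fun y y' n hy hy' hn h h' => ?_⟩
    · obtain ⟨n, hn, e⟩ := hf y hy
      exact ⟨n, hn, (key y n).2 ⟨hy, hn, e⟩⟩
    · rw [((key y n).1 h).2.2, ((key y' n).1 h').2.2]
  · rintro ⟨f, h1, h2⟩
    refine img_of_rel (R := fun n y => E (opair y n) f) inferInstance h1 ?_
    intro n y y' hn hy hy' h h'
    exact h2 y y' n hy hy' hn h h'

theorem Img.refl (z : M) : Img z z :=
  img_of_fn (f := fun x => x) inferInstance fun y hy => ⟨y, hy, rfl⟩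

theorem Img.of_sub {z a : M} (h : Sub a z) : Img z a :=
  img_of_fn (f := fun x => x) inferInstance fun y hy => ⟨y, h y hy, rfl⟩

theorem Img.sub {z a b : M} (h : Img z a) (hb : Sub b a) : Img z b := by
  obtain ⟨f, hf⟩ := h
  exact ⟨f, fun y hy => hf y (hb y hy)⟩

theorem Img.mono {z z' a : M} (h : Img z a) (hz : Sub z z') : Img z' a := by
  obtain ⟨f, hf⟩ := h
  exact ⟨f, fun y hy => by
    obtain ⟨x, hx, e⟩ := hf y hy
    exact ⟨x, hz x hx, e⟩⟩

theorem Img.trans {u z a : M} (h : Img u z) (h' : Img z a) : Img u a := by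
  obtain ⟨f, hf⟩ := h
  obtain ⟨g, hg⟩ := h'
  refine img_of_fn (f := fun x => app g (app f x)) inferInstance fun y hy => ?_
  obtain ⟨x, hx, e⟩ := hg y hy
  obtain ⟨t, ht, e'⟩ := hf x hx
  exact ⟨t, ht, by rw [e, e']⟩

theorem Img.image {z a : M} (h : Img z a) {f : M → M} (hf : Fn1 f) : Img z (SW.img a f) := by
  refine Img.trans h (img_of_fn hf fun y hy => ?_)
  rw [mem_img' hf] at hy
  exact hy

theorem Img.inj {z a b : M} (h : Img z b) {f : M → M} (hf : Fn1 f)
    (h1 : ∀ x, E x a → E (f x) b)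
    (h2 : ∀ x x', E x a → E x' a → f x = f x' → x = x') : Img z a := by
  refine Img.trans h ?_
  have hR : Cl2 (fun u v : M => u = f v) := by
    have : ∀ {k : ℕ} {t : (Fin k → M) → M} [DfT t], DfT (fun v => f (t v)) :=
      fun {k} {t} ht => hf.comp1 ht
    infer_instance
  refine img_of_rel (R := fun u v => u = f v) hR (fun y hy => ⟨f y, h1 y hy, rfl⟩) ?_
  intro x y y' _ hy hy' e e'
  exact h2 y y' hy hy' (e.symm.trans e')

end

end AO
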